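import Pool.Agent.LE.StmtsM

/-!
# Squad LYM, row DUA: duality
-/

set_option autoImplicit false

open MeasureTheory Set Real Function Matrix

open scoped ENNReal ComplexConjugate ComplexOrder

noncomputable section

namespace Pool.Agent.LE.MN.H63

open Pool.Agent.Anderson hiding box mem_box card_box

open scoped Pool.Agent.LE.MN

variable {d : ℕ}

/-- the inequality with a positive constant -/
theorem dua_pos {Λ : Finset (Site d)} (w : Λ → ℂ) (D : Site d → ℝ) (E η s : ℝ)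
    (C : Matrix Λ Λ ℂ) (hη : 0 < η) (hs : 0 < s) (hC : C.IsHermitian) (hCK : C * C = Kmat Λ E η)
    (hX : ∀ v : Λ → ℂ, nsq (XM C (fun y => D y) *ᵥ v) ≤ s ^ 2 * nsq v) :
    ∫ θ, (md E η θ)⁻¹ * ‖hatV (fun y : Λ => (D y : ℂ) * w y) θ‖ ^ 2 ≤
      s ^ 2 * ∫ θ, md E η θ * ‖hatV w θ‖ ^ 2 := by
  set m : UnitAddTorus (Fin d) → ℝ := md E η with hm
  have hmpos : ∀ θ, 0 < m θ := fun θ => md_pos hη θ
  have cm : Continuous m := continuous_md E η
  have cim : Continuous fun θ => (m θ)⁻¹ := continuous_inv_md hη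
  set bv : Λ → ℂ := fun y => (D y : ℂ) * w y with hbv
  have cw := continuous_hatV w
  have cb := continuous_hatV bv
  set N2 : ℝ := ∫ θ, m θ * ‖hatV w θ‖ ^ 2 with hN2
  set B : ℝ := ∫ θ, (m θ)⁻¹ * ‖hatV bv θ‖ ^ 2 with hB
  have hform : ∀ v : Λ → ℂ, nsq (C *ᵥ v) = ∫ θ, (m θ)⁻¹ * ‖hatV v θ‖ ^ 2 := by
    intro v
    rw [← Kmat_form_re Λ hη, ← hCK]
    have h1 := star_dot_self (C *ᵥ v)
    rw [star_mulVec, ← dotProduct_mulVec, mulVec_mulVec, hC.eq] at h1
    rw [h1, Complex.ofReal_re]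
  set a : Λ → ℂ := C *ᵥ bv with ha
  have haB : nsq a = B := hform bv
  set c : Λ → ℂ := diagonal (fun y : Λ => ((D y : ℝ) : ℂ)) *ᵥ (C *ᵥ a) with hc
  have hbd : bv = diagonal (fun y : Λ => ((D y : ℝ) : ℂ)) *ᵥ w := by
    funext y
    rw [mulVec_diagonal]
  have hCc : C *ᵥ c = XM C (fun y => D y) *ᵥ a := by
    rw [hc]
    unfold XM
    rw [← mulVec_mulVec, ← mulVec_mulVec]
  have cc := continuous_hatV c
  have hpair : (nsq a : ℂ) = ∫ θ, conj (hatV w θ) * hatV c θ := by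
    rw [integral_hatV, ← star_dot_self]
    have h1 : star a ⬝ᵥ a = star w ⬝ᵥ c := by
      conv_lhs => rw [ha]
      rw [star_mulVec, ← dotProduct_mulVec, hC.eq, ← ha, hbd, star_mulVec, ← dotProduct_mulVec, hc]
      congr 2
      rw [diagonal_conjTranspose]
      congr 1
      funext y
      simp
    rw [h1]
    rfl
  have hle : nsq a ≤ s ^ 2 / 2 * N2 + 1 / (2 * s ^ 2) * nsq (C *ᵥ c) := by
    have h1 : nsq a = ‖∫ θ, conj (hatV w θ) * hatV c θ‖ := by
      rw [← hpair, Complex.norm_real, Real.norm_eq_abs, abs_of_nonneg (nsq_nonneg a)]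
    rw [h1, hform c]
    refine (norm_integral_le_integral_norm _).trans ?_
    rw [hN2, ← integral_const_mul, ← integral_const_mul, ← integral_add]
    · apply integral_mono
      · apply integrable_of_cont
        fun_prop
      · apply integrable_of_cont
        fun_prop
      · intro θ
        have hmp := hmpos θ
        simp only
        rw [norm_mul, RCLike.norm_conj]
        have h2 : s ^ 2 / 2 * (m θ * ‖hatV w θ‖ ^ 2) + 1 / (2 * s ^ 2) *
            ((m θ)⁻¹ * ‖hatV c θ‖ ^ 2) - ‖hatV w θ‖ * ‖hatV c θ‖ =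
            (m θ)⁻¹ / (2 * s ^ 2) * (s ^ 2 * m θ * ‖hatV w θ‖ - ‖hatV c θ‖) ^ 2 := by
          field_simp
          ring
        have h3 : 0 ≤ (m θ)⁻¹ / (2 * s ^ 2) *
            (s ^ 2 * m θ * ‖hatV w θ‖ - ‖hatV c θ‖) ^ 2 := by
          have := inv_pos.2 hmp
          positivity
        linarith
    · apply integrable_of_cont
      fun_prop
    · apply integrable_of_cont
      fun_prop
  have hXa := hX a
  rw [← hCc] at hXa
  have h5 : 1 / (2 * s ^ 2) * nsq (C *ᵥ c) ≤ nsq a / 2 := by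
    have h6 : 1 / (2 * s ^ 2) * nsq (C *ᵥ c) ≤ 1 / (2 * s ^ 2) * (s ^ 2 * nsq a) :=
      mul_le_mul_of_nonneg_left hXa (by positivity)
    have h7 : 1 / (2 * s ^ 2) * (s ^ 2 * nsq a) = nsq a / 2 := by
      field_simp
    linarith
  rw [← haB]
  linarith

theorem dua : DuaStmt := by
  intro d Λ w D E η τ C hη hτ hC hCK hX
  rcases hτ.eq_or_lt with h0 | h0
  · subst h0
    have key : ∀ s : ℝ, 0 < s → ∫ θ, (md E η θ)⁻¹ * ‖hatV (fun y : Λ => (D y : ℂ) * w y) θ‖ ^ 2 ≤
        s ^ 2 * ∫ θ, md E η θ * ‖hatV w θ‖ ^ 2 := by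
      intro s hs
      apply dua_pos w D E η s C hη hs hC hCK
      intro v
      refine (hX v).trans ?_
      have := nsq_nonneg v
      have h2 : 0 ≤ s ^ 2 * nsq v := by positivity
      have h3 : (0 : ℝ) ^ 2 * nsq v = 0 := by ring
      rw [h3]
      exact h2
    generalize (∫ θ, (md E η θ)⁻¹ * ‖hatV (fun y : Λ => (D y : ℂ) * w y) θ‖ ^ 2) = B at key ⊢
    have hN : 0 ≤ ∫ θ, md E η θ * ‖hatV w θ‖ ^ 2 := by
      apply integral_nonneg
      intro θ
      have := md_pos (E := E) hη θ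
      positivity
    generalize (∫ θ, md E η θ * ‖hatV w θ‖ ^ 2) = N at key hN ⊢
    have h1 : B ≤ 0 := by
      by_contra hB
      push Not at hB
      have hs : 0 < √(B / (2 * (N + 1))) := Real.sqrt_pos.2 (by positivity)
      have h2 := key _ hs
      rw [Real.sq_sqrt (by positivity)] at h2
      have h3 : B / (2 * (N + 1)) * N ≤ B / 2 := by
        rw [div_mul_eq_mul_div, div_le_div_iff₀ (by positivity) (by norm_num)]
        nlinarith
      linarith
    have h4 : (0 : ℝ) ^ 2 * N = 0 := by ring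
    rw [h4]
    exact h1
  · exact dua_pos w D E η τ C hη h0 hC hCK hX

end Pool.Agent.LE.MN.H63
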